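import Pool.Agent.H77.KG.Targets

/-!
# Row MC3 of the board kgr_modules

No connected group whose quotient by a finite normal subgroup is a product of two groups `PSL_2`
acts faithfully and minimally on an abelian group of rank 2.
-/

set_option autoImplicit false

open Set Pool.Agent.H77.BC Pool.Agent.H77.BD Pool.Agent.H77.KG

namespace Pool.Agent.H13.KGR

section alg

variable {G' I : Type} {L : I → Type} [Group G'] [∀ i, Group (L i)] (e : G' ≃* ∀ i, L i)
  {i j : I}

private theorem mem_Nj (hij : i ≠ j) (hk : ∀ k, k = i ∨ k = j) (g : G') :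
    g ∈ Nj e {i} ↔ e g j = 1 := by
  constructor
  · intro h
    exact h j (fun h' => hij h'.symm)
  · intro h k hk'
    rcases hk k with rfl | rfl
    · exact absurd rfl hk'
    · exact h

private theorem comm_Nj (hij : i ≠ j) (hk : ∀ k, k = i ∨ k = j) {a b : G'} (ha : a ∈ Nj e {i})
    (hb : b ∈ Nj e {j}) : a * b = b * a := by
  rw [mem_Nj e hij hk] at ha
  rw [mem_Nj e hij.symm (fun k => (hk k).symm)] at hb
  apply e.injective
  rw [map_mul, map_mul]
  funext k
  rw [Pi.mul_apply, Pi.mul_apply]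
  rcases hk k with rfl | rfl
  · rw [hb, mul_one, one_mul]
  · rw [ha, mul_one, one_mul]

/-- the subgroup of the factor `i` which corresponds to `u1` -/
private def UU (i : I) (u1 : Subgroup (L i)) : Subgroup G' :=
  Nj e {i} ⊓ u1.comap ((Pi.evalMonoidHom L i).comp e.toMonoidHom)

private theorem mem_UU (hij : i ≠ j) (hk : ∀ k, k = i ∨ k = j) (u1 : Subgroup (L i)) (g : G') :
    g ∈ UU e i u1 ↔ e g j = 1 ∧ e g i ∈ u1 := by
  unfold UU
  rw [Subgroup.mem_inf, mem_Nj e hij hk]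
  rfl

open scoped Classical in
private theorem sgl_mem (hij : i ≠ j) (hk : ∀ k, k = i ∨ k = j) (u1 : Subgroup (L i)) {x : L i}
    (hx : x ∈ u1) : e.symm (Pi.mulSingle i x) ∈ UU e i u1 := by
  rw [mem_UU e hij hk, MulEquiv.apply_symm_apply, Pi.mulSingle_eq_of_ne hij.symm,
    Pi.mulSingle_eq_same]
  exact ⟨rfl, hx⟩

private theorem UU_comm (hij : i ≠ j) (hk : ∀ k, k = i ∨ k = j) (u1 : Subgroup (L i))
    (h1 : ∀ g, g ∈ u1 ↔ ∀ u ∈ u1, g * u = u * g) :
    ∀ a ∈ UU e i u1, ∀ b ∈ UU e i u1, a * b = b * a := by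
  intro a ha b hb
  rw [mem_UU e hij hk] at ha hb
  apply e.injective
  rw [map_mul, map_mul]
  funext k
  rw [Pi.mul_apply, Pi.mul_apply]
  rcases hk k with rfl | rfl
  · exact (h1 _).1 ha.2 _ hb.2
  · rw [ha.1, hb.1]

private theorem UU_eq (hij : i ≠ j) (hk : ∀ k, k = i ∨ k = j) (u1 : Subgroup (L i))
    (h1 : ∀ g, g ∈ u1 ↔ ∀ u ∈ u1, g * u = u * g) :
    UU e i u1 = Nj e {i} ⊓ Subgroup.centralizer (UU e i u1 : Set G') := by
  classical
  apply le_antisymm
  · refine le_inf inf_le_left ?_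
    intro a ha
    rw [Subgroup.mem_centralizer_iff]
    intro b hb
    exact UU_comm e hij hk u1 h1 b hb a ha
  · intro a ha
    rw [Subgroup.mem_inf, Subgroup.mem_centralizer_iff, mem_Nj e hij hk] at ha
    rw [mem_UU e hij hk]
    refine ⟨ha.1, (h1 _).2 fun u hu => ?_⟩
    have h2 := ha.2 _ (sgl_mem e hij hk u1 hu)
    have h3 := congrFun (congrArg e h2) i
    rw [map_mul, map_mul, Pi.mul_apply, Pi.mul_apply, MulEquiv.apply_symm_apply,
      Pi.mulSingle_eq_same] at h3
    exact h3.symm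

private theorem UU_spl (hij : i ≠ j) (hk : ∀ k, k = i ∨ k = j) (u1 : Subgroup (L i))
    (h2 : Spl u1) : Spl (UU e i u1) := by
  classical
  intro k hk1
  obtain ⟨d0, hd1, hd2⟩ := h2 k hk1
  refine ⟨e.symm (Pi.mulSingle i d0), ?_, ?_⟩
  · intro u
    rw [mem_UU e hij hk, mem_UU e hij hk, map_mul, map_mul, map_inv, Pi.mul_apply, Pi.mul_apply,
      Pi.mul_apply, Pi.mul_apply, Pi.inv_apply, Pi.inv_apply, MulEquiv.apply_symm_apply,
      Pi.mulSingle_eq_of_ne hij.symm, Pi.mulSingle_eq_same, one_mul, inv_one, mul_one]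
    rw [← hd1]
  · intro u hu hc
    rw [mem_UU e hij hk] at hu
    apply e.injective
    rw [map_one]
    funext l
    rcases hk l with rfl | rfl
    · refine hd2 _ hu.2 ?_
      have h3 := congrFun (congrArg e hc) l
      rw [map_mul, map_mul, map_pow, Pi.mul_apply, Pi.mul_apply, Pi.pow_apply,
        MulEquiv.apply_symm_apply, Pi.mulSingle_eq_same] at h3
      exact h3
    · exact hu.1

private theorem UU_inf (hij : i ≠ j) (hk : ∀ k, k = i ∨ k = j) (u1 : Subgroup (L i))
    (h3 : (u1 : Set (L i)).Infinite) : (UU e i u1 : Set G').Infinite := by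
  classical
  have h4 : ((fun x : L i => e.symm (Pi.mulSingle i x)) '' (u1 : Set (L i))).Infinite := by
    refine h3.image ?_
    intro x _ y _ hxy
    have := e.symm.injective hxy
    exact Pi.mulSingle_injective i this
  refine h4.mono ?_
  rintro _ ⟨x, hx, rfl⟩
  exact sgl_mem e hij hk u1 hx

end alg

/-- the fixed points of a subgroup -/
private def fx {H V : Type} [Group H] [AddCommGroup V] [DistribMulAction H V] (T : Subgroup H) :
    AddSubgroup V where
  carrier := {v | ∀ g ∈ T, g • v = v}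
  zero_mem' := fun g _ => smul_zero g
  add_mem' := fun {a b} ha hb g hg => by rw [smul_add, ha g hg, hb g hg]
  neg_mem' := fun {a} ha g hg => by rw [smul_neg, ha g hg]

private theorem D_fx {M : Type} (U : RU M) {H V : Type} [Group H] [AddCommGroup V]
    [DistribMulAction H V] [Cod M H] [Cod M V] [DG U H] [DAb U V] [DA U H V] (T : Subgroup H)
    (hT : U.D (T : Set H)) : U.D ((fx T : AddSubgroup V) : Set V) := by
  have h1 : U.D {z : V × H | z.2 ∈ T → z.2 • z.1 = z.1} :=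
    D_imp (D_subst (p := fun g : H => g ∈ T) hT DFn_snd)
      (D_eqf (DFn_act DFn_snd DFn_fst) DFn_fst)
  exact D_forall (p := fun (v : V) (g : H) => g ∈ T → g • v = v) h1

theorem pf_MC3 (hKUN : T_KUN) (hAL2 : T_AL2) (hMC2 : T_MC2) (hCTD : T_CTD) (hCCE : T_CCE)
    (hMNC : T_MNC) (hADT : T_ADT) (hFCJ : T_FCJ) (hSBM : T_SBM) (hHMI : T_HMI) : T_MC3 := by
  intro M U H V _ _ _ _ _ _ _ _ hconn hMn hfaith hrk G' I L _ _ _ _ e i j hij hk hLi hLj hNi hNj
    p hp hsurj hker
  classical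
  have hRKA : RKA U := Pool.Agent.H77.BCP.a_RKA U
  have hVinf : Infinite V := by
    have h := hMn.2.2.1
    exact Set.infinite_univ_iff.1 h
  obtain ⟨u1, h1, h2, h3, -, -, -⟩ := hAL2 hLi
  have hUD : U.D (UU e i u1 : Set G') := by
    rw [UU_eq e hij hk u1 h1]
    exact D_inter hNi ((hCTD U).1 _)
  have hCD : U.D (((UU e i u1).comap p : Subgroup H) : Set H) := ((hHMI U p hp).2 _ hUD).1
  have hWinf := hKUN U (V := V) p hsurj hker (UU e i u1) hCD (UU_comm e hij hk u1 h1)
    (UU_spl e hij hk u1 h2)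
  obtain ⟨hU1, hU2, hU3, -, -, -⟩ := hCCE U ((UU e i u1).comap p) hCD
  set Uh : Subgroup H := cc U ((UU e i u1).comap p) with hUh
  have hUhinf : (Uh : Set H).Infinite := by
    intro hfin
    have h4 : U.R (Uh : Set H) = 0 := (hRKA.fin hU1.1 ⟨1, Uh.one_mem⟩).2 hfin
    rw [hU3] at h4
    have h5 := (hRKA.fin hCD ⟨1, Subgroup.one_mem _⟩).1 h4
    refine UU_inf e hij hk u1 h3 ((h5.image p).subset ?_)
    intro x hx
    obtain ⟨h, rfl⟩ := hsurj x
    exact ⟨h, hx, rfl⟩
  -- the fixed points of `Uh`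
  have hWD : U.D ((fx Uh : AddSubgroup V) : Set V) := D_fx U Uh hU1.1
  have hWinf' : ((fx Uh : AddSubgroup V) : Set V).Infinite := hWinf
  have hWtop : (fx Uh : AddSubgroup V) ≠ ⊤ := by
    intro h
    apply hUhinf
    refine (Set.finite_singleton (1 : H)).subset ?_
    intro g hg
    have h4 : ∀ v : V, g • v = (1 : H) • v := by
      intro v
      rw [one_smul]
      have h5 : v ∈ (fx Uh : AddSubgroup V) := by rw [h]; trivial
      exact h5 g hg
    exact hfaith.eq_of_smul_eq_smul h4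
  have hWr : U.R ((fx Uh : AddSubgroup V) : Set V) = 1 := by
    have h4 := hMNC U (⊤ : Subgroup H) (⊤ : AddSubgroup V) hMn
    have h5 : U.R ((⊤ : AddSubgroup V) : Set V) = 2 := hrk
    have h6 : ¬ U.R ((⊤ : AddSubgroup V) : Set V) ≤ U.R ((fx Uh : AddSubgroup V) : Set V) :=
      fun h => hWtop (h4.2 _ le_top hWD h)
    have h7 : U.R ((fx Uh : AddSubgroup V) : Set V) ≠ 0 :=
      fun h => hWinf' ((hRKA.fin hWD ⟨0, AddSubgroup.zero_mem _⟩).1 h)
    omega
  obtain ⟨W0, hW1, hW2, hW3, -, hW5⟩ := (hADT U V).comp _ hWD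
  have hW0r : U.R (W0 : Set V) = 1 := hW3.trans hWr
  -- the group `H2`
  have hC2 : U.D (((Nj e {j}).comap p : Subgroup H) : Set H) := ((hHMI U p hp).2 _ hNj.1).1
  obtain ⟨hH1, hH2, hH3, -, -, hH6⟩ := hCCE U ((Nj e {j}).comap p) hC2
  set H2 : Subgroup H := cc U ((Nj e {j}).comap p) with hH2def
  have hcomm : ∀ u ∈ Uh, ∀ h ∈ H2, h * u = u * h := by
    intro u hu h hh
    refine hFCJ U H2 u hH1 ?_ h hh
    refine (hker.image fun k => k * u).subset ?_
    rintro _ ⟨g, hg, rfl⟩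
    refine ⟨g * u * g⁻¹ * u⁻¹, ?_, by group⟩
    have hpu : p u ∈ Nj e {i} := (hU2 hu).1
    have hpg : p g ∈ Nj e {j} := hH2 hg
    have h4 := comm_Nj e hij hk hpu hpg
    show p (g * u * g⁻¹ * u⁻¹) = 1
    rw [map_mul, map_mul, map_mul, ← h4, map_inv, map_inv]
    group
  have hWinv : ∀ h ∈ H2, ∀ v : V, v ∈ (fx Uh : AddSubgroup V) → h • v ∈ (fx Uh : AddSubgroup V) := by
    intro h hh v hv u hu
    rw [smul_smul, ← hcomm u hu h hh, mul_smul, hv u hu]
  have hW0inv : ∀ h ∈ H2, ∀ v : V, v ∈ W0 ↔ h • v ∈ W0 := by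
    intro h hh
    refine hW5 (DistribMulAction.toAddEquiv V h) ?_ ?_
    · exact DFn_act (DFn_const h) DFn_id
    · intro v
      refine ⟨fun hv => hWinv h hh v hv, fun hv => ?_⟩
      have h4 := hWinv h⁻¹ (H2.inv_mem hh) _ hv
      have h5 : h⁻¹ • (DistribMulAction.toAddEquiv V h) v = v := inv_smul_smul h v
      rwa [h5] at h4
  have hIv : Iv H2 W0 := fun h hh v hv => (hW0inv h hh v).1 hv
  have hMn2 : Mn U H2 W0 := by
    refine ⟨hW2.1, hIv, ?_, ?_⟩
    · intro h
      have := (hRKA.fin hW2.1 ⟨0, W0.zero_mem⟩).2 h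
      omega
    · intro A hA1 hA2 _ hA4
      have h4 : ¬ U.R (W0 : Set V) ≤ U.R (A : Set V) := fun h => hA4 (hW2.2 A hA1 hA2 h)
      exact (hRKA.fin hA2 ⟨0, A.zero_mem⟩).1 (by omega)
  -- the image of `H2`
  have hkerD : U.D (p.ker : Set H) := D_finite hker
  have hmap : H2.map p = Nj e {j} := by
    obtain ⟨h4, h5, -⟩ := (hHMI U p hp).1 H2 hH1.1
    have h6 := ((hHMI U p hp).2 _ hNj.1).2 (fun x _ => hsurj x)
    have h7 : U.R (p.ker : Set H) = 0 := (hRKA.fin hkerD ⟨1, p.ker.one_mem⟩).2 hker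
    have h8f : ((H2 ⊓ p.ker : Subgroup H) : Set H).Finite := hker.subset inf_le_right
    have h8 : U.R ((H2 ⊓ p.ker : Subgroup H) : Set H) = 0 :=
      (hRKA.fin (D_finite h8f) ⟨1, Subgroup.one_mem _⟩).2 h8f
    refine hNj.2 _ ?_ h4 ?_
    · rintro _ ⟨h, hh, rfl⟩
      exact hH2 hh
    · rw [hH3] at h5
      omega
  -- the group `H2` acts trivially on `W0`
  obtain ⟨iDG, iDAb, iDA, hc1, -, hc3⟩ := hSBM U H2 W0 hIv hH1.1 hW2.1
  have hconn2 := hc1 hH1
  let p2 : ↥H2 →* L j := ((Pi.evalMonoidHom L j).comp e.toMonoidHom).comp (p.comp H2.subtype)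
  have hp2 : ∀ h : ↥H2, p2 h = e (p h) j := fun _ => rfl
  have hp2s : Function.Surjective p2 := by
    intro x
    have h4 : e.symm (Pi.mulSingle j x) ∈ H2.map p := by
      rw [hmap, mem_Nj e hij.symm (fun k => (hk k).symm), MulEquiv.apply_symm_apply,
        Pi.mulSingle_eq_of_ne hij]
    obtain ⟨h, hh, hpx⟩ := h4
    refine ⟨⟨h, hh⟩, ?_⟩
    rw [hp2]
    show e (p h) j = x
    have hpx' : p h = e.symm (Pi.mulSingle j x) := hpx
    rw [hpx', MulEquiv.apply_symm_apply, Pi.mulSingle_eq_same]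
  have hp2k : (p2.ker : Set ↥H2).Finite := by
    refine Set.Finite.of_finite_image (f := Subtype.val) (hker.subset ?_)
      Subtype.val_injective.injOn
    rintro _ ⟨h, hh, rfl⟩
    have h4 : e (p h) j = 1 := hh
    have h5 : p h ∈ Nj e {j} := hH2 h.2
    rw [mem_Nj e hij.symm (fun k => (hk k).symm)] at h5
    show p h = 1
    apply e.injective
    rw [map_one]
    funext k
    rcases hk k with rfl | rfl
    · exact h5
    · exact h4
  have hcor : ∀ Y : Subgroup ↥H2, U.D (Y : Set ↥H2) → Y ≠ ⊤ →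
      U.R (Y : Set ↥H2) + U.R (univ : Set ↥W0) ≤ U.R (univ : Set ↥H2) := by
    intro Y hY1 hY2
    have h4 : U.R (univ : Set ↥W0) = 1 := by
      rw [← hW0r]
      exact R_sub_univ (p := fun x => x ∈ W0)
    have h5 : ¬ U.R ((⊤ : Subgroup ↥H2) : Set ↥H2) ≤ U.R (Y : Set ↥H2) :=
      fun h => hY2 (hconn2.2 Y le_top hY1 h)
    have h6 : U.R ((⊤ : Subgroup ↥H2) : Set ↥H2) = U.R (univ : Set ↥H2) := rfl
    omega
  have htriv := @hMC2 M U ↥H2 ↥W0 _ _ (subAct H2 W0 hIv) codSub codSub iDG iDAb iDA hconn2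
    (hc3 hMn2) hcor (L j) _ hLj p2 hp2s hp2k
  have htriv' : ∀ h ∈ H2, ∀ v ∈ W0, h • v = v := by
    intro h hh v hv
    exact congrArg Subtype.val (htriv ⟨h, hh⟩ ⟨v, hv⟩)
  -- the fixed points of `H2`
  have hFtop : (fx H2 : AddSubgroup V) = ⊤ := by
    by_contra hne
    have hfin := hMn.2.2.2 (fx H2) le_top (D_fx U H2 hH1.1) ?_ hne
    · apply hMn2.2.2.1
      exact hfin.subset fun v hv h hh => htriv' h hh v hv
    · intro t _ v hv h hh
      have h4 : t⁻¹ * h * t ∈ H2 := by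
        rw [hH6 t ?_ (t⁻¹ * h * t)]
        · have : t * (t⁻¹ * h * t) * t⁻¹ = h := by group
          rw [this]
          exact hh
        · intro x
          rw [Subgroup.mem_comap, Subgroup.mem_comap,
            mem_Nj e hij.symm (fun k => (hk k).symm), mem_Nj e hij.symm (fun k => (hk k).symm),
            map_mul, map_mul, map_mul, map_mul, Pi.mul_apply, Pi.mul_apply, map_inv, map_inv,
            Pi.inv_apply]
          constructor
          · intro h5
            rw [h5, mul_one, mul_inv_cancel]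
          · intro h5
            rw [mul_inv_eq_one, mul_eq_left] at h5
            exact h5
      have h5 : h • t • v = t • ((t⁻¹ * h * t) • v) := by
        rw [smul_smul, smul_smul]
        congr 1
        group
      rw [h5, hv _ h4]
  -- conclusion
  obtain ⟨u2, -, -, h4, -, -, -⟩ := hAL2 hLj
  apply h4
  refine (Set.finite_singleton (1 : L j)).subset ?_
  intro x _
  obtain ⟨⟨h, hh⟩, hx⟩ := hp2s x
  have h5 : h = 1 := by
    refine hfaith.eq_of_smul_eq_smul fun v => ?_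
    rw [one_smul]
    have h6 : v ∈ (fx H2 : AddSubgroup V) := by rw [hFtop]; trivial
    exact h6 h hh
  subst h5
  rw [← hx]
  exact map_one p2

end Pool.Agent.H13.KGR
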